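import Pool.Agent.P8H43.RK.Lin
import Pool.Agent.E8helper40.PC.Main

/-!
# Subgroups whose p-adic closure has rank one
-/

set_option autoImplicit false

open TensorProduct Module Matrix

namespace Pool.Agent.P8H43.RK

open Pool.Agent.E8helper40.PC

variable {p : ℕ} [Fact p.Prime] {n : ℕ} (A : SimpleAbelianVariety p n)

/-- `L ⊗ ℚ`, the rational subspace of `A(ℚ) ⊗ ℚ` spanned by `L` -/
noncomputable def ratSpan (L : AddSubgroup A.Pts) : Submodule ℚ (ℚ ⊗[ℤ] A.Pts) :=
  Submodule.span ℚ ((fun x : A.Pts => (1 : ℚ) ⊗ₜ[ℤ] x) '' L)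

/-- the extended logarithm -/
noncomputable abbrev xlog : ℚ ⊗[ℤ] A.Pts →ₗ[ℚ] (Fin n → ℚ_[p]) := extend (A.log.comp A.incl)

theorem xlog_one (x : A.Pts) : xlog A ((1 : ℚ) ⊗ₜ x) = A.log (A.incl x) := by
  rw [xlog, extend_tmul, one_smul]
  rfl

/-- a basis -/
theorem exists_basis (L : AddSubgroup A.Pts) (hL : L.FG) :
    ∃ x : Fin (rank A L) → ℚ ⊗[ℤ] A.Pts, LinearIndependent ℚ x ∧
      Submodule.span ℚ (Set.range x) = ratSpan A L ∧
      Submodule.span A.End (Set.range x) = endSpan A L := by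
  obtain ⟨e, hli, hspan⟩ := exists_family A L hL
  refine ⟨fun i => (1 : ℚ) ⊗ₜ[ℤ] ((e i : L) : A.Pts), hli, ?_, ?_⟩
  · apply le_antisymm
    · rw [Submodule.span_le]
      rintro _ ⟨i, rfl⟩
      exact Submodule.subset_span ⟨_, (e i).2, rfl⟩
    · rw [ratSpan, Submodule.span_le]
      rintro _ ⟨x, hx, rfl⟩
      exact hspan x hx
  · apply le_antisymm
    · rw [Submodule.span_le]
      rintro _ ⟨i, rfl⟩
      exact Submodule.subset_span ⟨_, (e i).2, rfl⟩
    · rw [endSpan, Submodule.span_le]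
      rintro _ ⟨x, hx, rfl⟩
      exact Submodule.span_le_restrictScalars ℚ A.End _ (hspan x hx)

theorem finrank_ratSpan (L : AddSubgroup A.Pts) (hL : L.FG) :
    finrank ℚ (ratSpan A L) = rank A L := by
  obtain ⟨x, hx, h1, -⟩ := exists_basis A L hL
  rw [← h1, finrank_span_eq_card hx, Fintype.card_fin]

theorem finite_ratSpan (L : AddSubgroup A.Pts) (hL : L.FG) :
    FiniteDimensional ℚ (ratSpan A L) := by
  obtain ⟨x, hx, h1, -⟩ := exists_basis A L hL
  rw [← h1]
  exact FiniteDimensional.span_of_finite ℚ (Set.finite_range x)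

theorem ratSpan_le_endSpan (L : AddSubgroup A.Pts) {v : ℚ ⊗[ℤ] A.Pts} (hv : v ∈ ratSpan A L) :
    v ∈ endSpan A L :=
  Submodule.span_le_restrictScalars ℚ A.End _ hv

theorem xlog_mem (L : AddSubgroup A.Pts) {v : ℚ ⊗[ℤ] A.Pts} (hv : v ∈ ratSpan A L) :
    xlog A v ∈ logSpan A L := by
  have h1 := Submodule.mem_map_of_mem (f := xlog A) hv
  rw [ratSpan, Submodule.map_span, ← Set.image_comp] at h1
  have h2 : ((xlog A) ∘ fun x : A.Pts => (1 : ℚ) ⊗ₜ[ℤ] x) '' (L : Set A.Pts) =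
      (A.log.comp A.incl) '' L := by
    refine Set.image_congr fun x _ => ?_
    exact xlog_one A x
  rw [h2] at h1
  exact Submodule.span_le_restrictScalars ℚ ℚ_[p] _ h1

theorem logSpan_le (L : AddSubgroup A.Pts) (S : Submodule ℚ_[p] (Fin n → ℚ_[p]))
    (h : ∀ v ∈ ratSpan A L, xlog A v ∈ S) : logSpan A L ≤ S := by
  rw [logSpan, Submodule.span_le]
  rintro _ ⟨x, hx, rfl⟩
  have := h _ (Submodule.subset_span ⟨x, hx, rfl⟩)
  rw [xlog_one] at this
  exact this

/-- the line of the logarithms -/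
theorem exists_line (L : AddSubgroup A.Pts) (h1 : HasZpRank p (closure A L) 1) :
    ∃ ℓ : Fin n → ℚ_[p], ∀ v ∈ ratSpan A L, ∃ c : ℚ_[p], xlog A v = c • ℓ := by
  have h2 := (rank_closure A L h1).symm
  obtain ⟨ℓ, -, hℓ⟩ := finrank_eq_one_iff'.1 h2
  refine ⟨ℓ, fun v hv => ?_⟩
  obtain ⟨c, hc⟩ := hℓ ⟨xlog A v, xlog_mem A L hv⟩
  exact ⟨c, by rw [← Submodule.coe_smul, hc]⟩

theorem finrank_top_field {D W : Type*} [DivisionRing D] [AddCommGroup W] [Module D W] :
    finrank (⊤ : Subfield D) W = finrank D W := by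
  have h1 : finrank (⊤ : Subfield D) D = 1 := by
    refine finrank_eq_one (1 : D) one_ne_zero fun w => ⟨⟨w, Subfield.mem_top w⟩, ?_⟩
    rw [Subfield.smul_def, smul_eq_mul, mul_one]
  have h2 := Module.finrank_mul_finrank (⊤ : Subfield D) D W
  rw [h1, one_mul] at h2
  exact h2.symm

variable (hD : ∀ x y : A.End, x * y = y * x)

include hD in
/-- (1) -/
theorem part1 (L : AddSubgroup A.Pts) (hL : L.FG) (h1 : HasZpRank p (closure A L) 1) :
    finrank A.End (endSpan A L) = rank A L := by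
  obtain ⟨r, -, hu, -, hle⟩ := main A ⊤ (fun x _ y _ => hD x y) L hL
  rw [← hu 1 h1, one_mul, finrank_top_field] at hle
  obtain ⟨x, -, -, hx⟩ := exists_basis A L hL
  refine le_antisymm ?_ hle
  rw [← hx]
  exact (finrank_range_le_card x).trans (Fintype.card_fin _).le

include hD in
theorem rank_pos (L : AddSubgroup A.Pts) (hL : L.FG) (h1 : HasZpRank p (closure A L) 1) :
    0 < rank A L := by
  obtain ⟨r, -, hu, hle, -⟩ := main A ⊤ (fun x _ y _ => hD x y) L hL
  rw [← hu 1 h1] at hle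
  exact hle

include hD in
/-- a rational basis is a basis over the endomorphisms -/
theorem exists_basis_end (L : AddSubgroup A.Pts) (hL : L.FG) (h1 : HasZpRank p (closure A L) 1) :
    ∃ x : Fin (rank A L) → ℚ ⊗[ℤ] A.Pts, LinearIndependent ℚ x ∧ LinearIndependent A.End x ∧
      Submodule.span ℚ (Set.range x) = ratSpan A L ∧
      Submodule.span A.End (Set.range x) = endSpan A L := by
  obtain ⟨x, hx, h2, h3⟩ := exists_basis A L hL
  refine ⟨x, hx, ?_, h2, h3⟩
  rw [linearIndependent_iff_card_eq_finrank_span, Fintype.card_fin, Set.finrank, h3]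
  exact (part1 A hD L hL h1).symm

/-- multiplication by an endomorphism -/
noncomputable def mulBy (δ : A.End) : ℚ ⊗[ℤ] A.Pts →ₗ[ℚ] ℚ ⊗[ℤ] A.Pts where
  toFun v := δ • v
  map_add' := smul_add δ
  map_smul' q v := smul_comm δ q v

theorem mulBy_injective {δ : A.End} (h : δ ≠ 0) : Function.Injective (mulBy A δ) := by
  intro v w hvw
  have h1 : δ • v = δ • w := hvw
  have h2 := congrArg (fun z => δ⁻¹ • z) h1
  simpa [smul_smul, inv_mul_cancel₀ h] using h2

theorem mem_map_mulBy (δ : A.End) (S : Submodule ℚ (ℚ ⊗[ℤ] A.Pts)) (v : ℚ ⊗[ℤ] A.Pts) :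
    v ∈ S.map (mulBy A δ) ↔ ∃ w ∈ S, v = δ • w := by
  rw [Submodule.mem_map]
  exact ⟨fun ⟨w, h1, h2⟩ => ⟨w, h1, h2.symm⟩, fun ⟨w, h1, h2⟩ => ⟨w, h1, h2.symm⟩⟩

theorem finrank_map_mulBy {δ : A.End} (h : δ ≠ 0) (S : Submodule ℚ (ℚ ⊗[ℤ] A.Pts)) :
    finrank ℚ (S.map (mulBy A δ)) = finrank ℚ S :=
  (LinearEquiv.finrank_eq (Submodule.equivMapOfInjective (mulBy A δ) (mulBy_injective A h) S)).symm

include hD in
/-- (2) -/
theorem part2 (L L' : AddSubgroup A.Pts) (hL : L.FG) (hL' : L'.FG)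
    (h1 : HasZpRank p (closure A L) 1) (h1' : HasZpRank p (closure A L') 1)
    (hs : endSpan A L = endSpan A L') :
    ∃ δ : A.End, δ ≠ 0 ∧ ∀ v, v ∈ ratSpan A L' ↔ ∃ w ∈ ratSpan A L, v = δ • w := by
  obtain ⟨x, hx, hxD, hr, he⟩ := exists_basis_end A hD L hL h1
  obtain ⟨x', hx', hxD', hr', he'⟩ := exists_basis_end A hD L' hL' h1'
  obtain ⟨ℓ, hℓ⟩ := exists_line A L h1
  obtain ⟨ℓ', hℓ'⟩ := exists_line A L' h1'
  have hc0 : ∀ i, ∃ c : ℚ_[p], xlog A (x i) = c • ℓ := fun i =>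
    hℓ _ (by rw [← hr]; exact Submodule.subset_span (Set.mem_range_self i))
  have hc0' : ∀ j, ∃ c : ℚ_[p], xlog A (x' j) = c • ℓ' := fun j =>
    hℓ' _ (by rw [← hr']; exact Submodule.subset_span (Set.mem_range_self j))
  choose c hc using hc0
  choose c' hc' using hc0'
  let Λ : ℚ ⊗[ℤ] A.Pts →+ (Fin n → AlgebraicClosure ℚ_[p]) :=
    { toFun := fun v b => algebraMap ℚ_[p] (AlgebraicClosure ℚ_[p]) (xlog A v b)
      map_zero' := by
        funext b
        simp
      map_add' := by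
        intro v w
        funext b
        simp }
  have hacl : IsAlgClosed (Qbar p) :=
    (algebraicClosure.isAlgClosure ℚ (AlgebraicClosure ℚ_[p])).isAlgClosed
  have hΛ : ∀ (δ : A.End) (v : ℚ ⊗[ℤ] A.Pts),
      Λ (δ • v) = (ovf (AlgebraicClosure ℚ_[p]) (A.lie δ)) *ᵥ Λ v := by
    intro δ v
    funext b
    have h := congrFun (A.log_smul δ v) b
    change algebraMap ℚ_[p] (AlgebraicClosure ℚ_[p]) (extend (A.log.comp A.incl) (δ • v) b) = _
    rw [h]
    simp only [Matrix.mulVec, dotProduct, Matrix.map_apply, map_sum, map_mul, ovf]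
    refine Finset.sum_congr rfl fun a _ => ?_
    congr 1
  have hkey := key (k := Qbar p) A.pos hD A.lie Λ hΛ A.independent (rank_pos A hD L hL h1) x x' hxD
    hxD' (by rw [he, he', hs])
    (fun i => algebraMap ℚ_[p] (AlgebraicClosure ℚ_[p]) (c i))
    (fun b => algebraMap ℚ_[p] (AlgebraicClosure ℚ_[p]) (ℓ b)) (fun i => by
      funext b
      change algebraMap ℚ_[p] (AlgebraicClosure ℚ_[p]) (xlog A (x i) b) = _
      rw [hc i, Pi.smul_apply, smul_eq_mul, map_mul]
      rfl)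
    (fun j => algebraMap ℚ_[p] (AlgebraicClosure ℚ_[p]) (c' j))
    (fun b => algebraMap ℚ_[p] (AlgebraicClosure ℚ_[p]) (ℓ' b)) (fun j => by
      funext b
      change algebraMap ℚ_[p] (AlgebraicClosure ℚ_[p]) (xlog A (x' j) b) = _
      rw [hc' j, Pi.smul_apply, smul_eq_mul, map_mul]
      rfl)
  obtain ⟨δ, hδ, q, hq⟩ := hkey
  have hle : ratSpan A L' ≤ (ratSpan A L).map (mulBy A δ) := by
    rw [← hr', Submodule.span_le]
    rintro _ ⟨j, rfl⟩
    rw [SetLike.mem_coe, mem_map_mulBy]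
    refine ⟨_, ?_, hq j⟩
    rw [← hr]
    exact Submodule.sum_mem _ fun i _ => Submodule.smul_mem _ _
      (Submodule.subset_span (Set.mem_range_self i))
  have hfin := finite_ratSpan A L hL
  have hrank : rank A L' = rank A L := by
    rw [← part1 A hD L hL h1, ← part1 A hD L' hL' h1', hs]
  have heq : ratSpan A L' = (ratSpan A L).map (mulBy A δ) := by
    refine Submodule.eq_of_le_of_finrank_eq hle ?_
    rw [finrank_map_mulBy A hδ, finrank_ratSpan A L hL, finrank_ratSpan A L' hL', hrank]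
  refine ⟨δ, hδ, fun v => ?_⟩
  rw [heq, mem_map_mulBy]

theorem endSpan_eq (L : AddSubgroup A.Pts) :
    endSpan A L = Submodule.span A.End (ratSpan A L : Set (ℚ ⊗[ℤ] A.Pts)) := by
  apply le_antisymm
  · exact Submodule.span_mono Submodule.subset_span
  · rw [Submodule.span_le]
    exact fun v hv => ratSpan_le_endSpan A L hv

include hD in
/-- (3) -/
theorem part3 (L L' : AddSubgroup A.Pts) (hL : L.FG) (hL' : L'.FG)
    (h1 : HasZpRank p (closure A L) 1) (δ : A.End) (hδ : δ ≠ 0)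
    (h : ∀ v, v ∈ ratSpan A L' ↔ ∃ w ∈ ratSpan A L, v = δ • w) :
    HasZpRank p (closure A L') 1 ∧ endSpan A L' = endSpan A L ∧ rank A L' = rank A L := by
  have heq : ratSpan A L' = (ratSpan A L).map (mulBy A δ) := by
    ext v
    rw [h, mem_map_mulBy]
  have hrank : rank A L' = rank A L := by
    rw [← finrank_ratSpan A L hL, ← finrank_ratSpan A L' hL', heq, finrank_map_mulBy A hδ]
  refine ⟨?_, ?_, hrank⟩
  · obtain ⟨r, hr, -, -, hle⟩ := main A ⊤ (fun x _ y _ => hD x y) L' hL'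
    have hpos := rank_pos A hD L hL h1
    have hr0 : r ≠ 0 := by
      intro h0
      rw [h0, zero_mul] at hle
      omega
    obtain ⟨ℓ, hℓ⟩ := exists_line A L h1
    have hr1 : r ≤ 1 := by
      rw [rank_closure A L' hr]
      have h2 : logSpan A L' ≤ Submodule.span ℚ_[p]
          {((A.lie δ).map (algebraMap ℚ ℚ_[p])) *ᵥ ℓ} := by
        refine logSpan_le A L' _ fun v hv => ?_
        obtain ⟨w, hw, rfl⟩ := (h v).1 hv
        obtain ⟨c, hc⟩ := hℓ w hw
        have h3 : xlog A (δ • w) = ((A.lie δ).map (algebraMap ℚ ℚ_[p])) *ᵥ (xlog A w) :=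
          A.log_smul δ w
        rw [h3, hc, Matrix.mulVec_smul]
        exact Submodule.smul_mem _ _ (Submodule.mem_span_singleton_self _)
      refine (Submodule.finrank_mono h2).trans ?_
      exact (finrank_span_le_card _).trans (by simp)
    have : r = 1 := by omega
    rw [← this]
    exact hr
  · rw [endSpan_eq, endSpan_eq]
    apply le_antisymm
    · rw [Submodule.span_le]
      intro v hv
      obtain ⟨w, hw, rfl⟩ := (h v).1 hv
      exact Submodule.smul_mem _ _ (Submodule.subset_span hw)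
    · rw [Submodule.span_le]
      intro w hw
      have h2 : δ • w ∈ ratSpan A L' := (h _).2 ⟨w, hw, rfl⟩
      have h3 : w = δ⁻¹ • (δ • w) := by rw [smul_smul, inv_mul_cancel₀ hδ, one_smul]
      rw [SetLike.mem_coe, h3]
      exact Submodule.smul_mem _ _ (Submodule.subset_span h2)

include hD in
/-- (3), the last part -/
theorem part3b (L : AddSubgroup A.Pts) (hL : L.FG) (h1 : HasZpRank p (closure A L) 1)
    (δ δ' : A.End) (hδ' : δ' ≠ 0) :
    (∀ v, (∃ w ∈ ratSpan A L, v = δ • w) ↔ ∃ w ∈ ratSpan A L, v = δ' • w) ↔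
      ∃ q : ℚ, δ' = q • δ := by
  constructor
  · intro h
    obtain ⟨x, hx, hxD, hr, he⟩ := exists_basis_end A hD L hL h1
    have hpos := rank_pos A hD L hL h1
    let i0 : Fin (rank A L) := ⟨0, hpos⟩
    have hx0 : x i0 ∈ ratSpan A L := by
      rw [← hr]; exact Submodule.subset_span (Set.mem_range_self _)
    obtain ⟨w, hw, hw2⟩ := (h (δ' • x i0)).2 ⟨_, hx0, rfl⟩
    rw [← hr] at hw
    obtain ⟨q, hq⟩ := (Submodule.mem_span_range_iff_exists_fun ℚ).1 hw
    have h2 : ∑ i, ((if i = i0 then δ' else 0) - q i • δ) • x i = 0 := by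
      simp only [sub_smul, Finset.sum_sub_distrib, ite_smul, zero_smul, Finset.sum_ite_eq',
        Finset.mem_univ, if_true]
      rw [hw2, ← hq, Finset.smul_sum, sub_eq_zero]
      refine Finset.sum_congr rfl fun i _ => ?_
      rw [smul_assoc, smul_comm]
    have h3 := Fintype.linearIndependent_iff.1 hxD _ h2 i0
    rw [if_pos rfl, sub_eq_zero] at h3
    exact ⟨q i0, h3⟩
  · rintro ⟨q, rfl⟩ v
    have hq : q ≠ 0 := by
      intro h0
      rw [h0, zero_smul] at hδ'
      exact hδ' rfl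
    constructor
    · rintro ⟨w, hw, rfl⟩
      refine ⟨q⁻¹ • w, Submodule.smul_mem _ _ hw, ?_⟩
      rw [smul_assoc, smul_comm δ q⁻¹ w, smul_smul, mul_inv_cancel₀ hq, one_smul]
    · rintro ⟨w, hw, rfl⟩
      refine ⟨q • w, Submodule.smul_mem _ _ hw, ?_⟩
      rw [smul_assoc, smul_comm δ q w]

end Pool.Agent.P8H43.RK
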