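import Pool.Agent.E8helper40.PC.Linear

/-!
# Families of vectors whose images lie in a line

The setting is that of `E8helper40.PC.Linear`. If two bases over the commutative division ring `D` of
the same subspace have images in lines, then they differ by an element of `D` and a rational matrix.
-/

set_option autoImplicit false
set_option linter.unusedSectionVars false

namespace Pool.Agent.P8H43.RK

open Module Matrix Pool.Agent.E8helper40.PC

variable {k K D V : Type*} [Field k] [IsAlgClosed k] [CharZero k] [Field K] [CharZero K]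
  [Algebra k K] [DivisionRing D] [CharZero D] [AddCommGroup V] [Module D V] [Module ℚ V]
  {n : ℕ}

/-- `μ` is a row eigenvector, `σ` its character -/
def EigC (M : D →+* Matrix (Fin n) (Fin n) ℚ) (μ : Fin n → k) (σ : D →+* k) : Prop :=
  μ ≠ 0 ∧ ∀ x : D, μ ᵥ* ovf k (M x) = σ x • μ

theorem exists_char (M : D →+* Matrix (Fin n) (Fin n) ℚ) {μ : Fin n → k}
    (h : Eigen k M ⊤ μ) (h0 : μ ≠ 0) : ∃ σ : D →+* k, EigC M μ σ := by
  obtain ⟨σ, hσ⟩ := h
  obtain ⟨b, hb⟩ := Function.ne_iff.1 h0
  have hb' : μ b ≠ 0 := hb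
  have hs : ∀ x : D, μ ᵥ* ovf k (M x) = σ ⟨x, Subfield.mem_top x⟩ • μ := fun x => hσ ⟨x, _⟩
  have hu : ∀ c d : k, c • μ = d • μ → c = d := by
    intro c d h
    have := congrFun h b
    simp only [Pi.smul_apply, smul_eq_mul] at this
    exact mul_right_cancel₀ hb' this
  refine ⟨{ toFun := fun x => σ ⟨x, Subfield.mem_top x⟩
            map_one' := ?_, map_mul' := ?_, map_zero' := ?_, map_add' := ?_ }, h0, hs⟩
  · apply hu
    rw [← hs, map_one, one_smul]
    have : ovf k (1 : Matrix (Fin n) (Fin n) ℚ) = 1 := by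
      unfold ovf; exact Matrix.map_one _ (map_zero _) (map_one _)
    rw [this, Matrix.vecMul_one]
  · intro x y
    apply hu
    rw [← hs, map_mul, ovf_mul, ← Matrix.vecMul_vecMul, hs, Matrix.smul_vecMul, hs, smul_smul]
  · apply hu
    rw [← hs, map_zero, ovf_zero, Matrix.vecMul_zero, zero_smul]
  · intro x y
    apply hu
    rw [← hs, map_add, ovf_add, Matrix.vecMul_add, hs, hs, add_smul]

theorem span_eigC (hn : 0 < n) (M : D →+* Matrix (Fin n) (Fin n) ℚ)
    (hD : ∀ x y : D, x * y = y * x) :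
    Submodule.span k {μ : Fin n → k | ∃ σ : D →+* k, EigC M μ σ} = ⊤ := by
  rw [eq_top_iff, ← span_eigen (k := k) hn M ⊤ (fun x _ y _ => hD x y), Submodule.span_le]
  intro μ hμ
  by_cases h0 : μ = 0
  · rw [h0]; exact Submodule.zero_mem _
  · exact Submodule.subset_span (exists_char M hμ h0)

/-- an element on which all characters agree is a rational number -/
theorem rat_of_char (hn : 0 < n) (M : D →+* Matrix (Fin n) (Fin n) ℚ)
    (hD : ∀ x y : D, x * y = y * x) (y : D) (c : k)
    (h : ∀ (μ : Fin n → k) (σ : D →+* k), EigC M μ σ → σ y = c) : ∃ q : ℚ, y = (q : D) := by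
  classical
  have hall : ∀ ν : Fin n → k, ν ᵥ* ovf k (M y) = c • ν := by
    intro ν
    have hmem : ν ∈ Submodule.span k {μ : Fin n → k | ∃ σ : D →+* k, EigC M μ σ} := by
      rw [span_eigC hn M hD]; trivial
    refine Submodule.span_induction (p := fun ν _ => ν ᵥ* ovf k (M y) = c • ν) ?_ ?_ ?_ ?_ hmem
    · rintro μ ⟨σ, hσ⟩
      rw [hσ.2 y, h μ σ hσ]
    · simp
    · intro a b _ _ ha hb
      rw [Matrix.add_vecMul, ha, hb, smul_add]
    · intro r a _ ha
      rw [Matrix.smul_vecMul, ha, smul_comm]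
  have hent : ∀ a b, ((M y a b : ℚ) : k) = if a = b then c else 0 := by
    intro a b
    have h1 := congrFun (hall (Pi.single a 1)) b
    rw [Matrix.single_one_vecMul] at h1
    simp only [Pi.smul_apply, smul_eq_mul, Pi.single_apply, ovf, Matrix.row_apply,
      Matrix.map_apply, eq_ratCast] at h1
    rw [h1]
    by_cases hab : a = b
    · subst hab; simp
    · rw [if_neg hab, if_neg (Ne.symm hab), mul_zero]
  have : Nonempty (Fin n) := ⟨⟨0, hn⟩⟩
  let a0 : Fin n := ⟨0, hn⟩
  refine ⟨M y a0 a0, M.injective ?_⟩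
  have hM : M ((M y a0 a0 : ℚ) : D) = (M y a0 a0) • (1 : Matrix (Fin n) (Fin n) ℚ) := by
    rw [← Rat.smul_one_eq_cast, map_rat_smul M (M y a0 a0) (1 : D), map_one]
  rw [hM]
  have hc : ((M y a0 a0 : ℚ) : k) = c := by rw [hent, if_pos rfl]
  ext a b
  have h1 := hent a b
  rw [Matrix.smul_apply, Matrix.one_apply, smul_eq_mul]
  by_cases hab : a = b
  · rw [if_pos hab] at h1 ⊢
    rw [← hc] at h1
    rw [mul_one]
    exact_mod_cast h1
  · rw [if_neg hab] at h1 ⊢
    rw [mul_zero]
    exact_mod_cast h1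

/-- the product of a row vector over `k` and a vector over `K` -/
def dt (K : Type*) [Field K] [Algebra k K] (μ : Fin n → k) (v : Fin n → K) : K :=
  (fun b => algebraMap k K (μ b)) ⬝ᵥ v

theorem dt_sum {ι : Type*} (s : Finset ι) (μ : Fin n → k) (v : ι → Fin n → K) :
    dt K μ (∑ i ∈ s, v i) = ∑ i ∈ s, dt K μ (v i) := by
  unfold dt; rw [dotProduct_sum]

theorem dt_smul (μ : Fin n → k) (c : K) (v : Fin n → K) : dt K μ (c • v) = c * dt K μ v := by
  unfold dt; rw [dotProduct_smul, smul_eq_mul]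

theorem dt_eig {M : D →+* Matrix (Fin n) (Fin n) ℚ} {Λ : V →+ (Fin n → K)}
    (hΛ : ∀ (δ : D) (v : V), Λ (δ • v) = (ovf K (M δ)) *ᵥ Λ v) {μ : Fin n → k} {σ : D →+* k}
    (h : EigC M μ σ) (δ : D) (v : V) : dt K μ (Λ (δ • v)) = algebraMap k K (σ δ) * dt K μ (Λ v) := by
  unfold dt
  rw [hΛ, dot_ovf, h.2 δ]
  have : (fun b => algebraMap k K ((σ δ • μ) b)) =
      algebraMap k K (σ δ) • fun b => algebraMap k K (μ b) := by
    funext b
    simp
  rw [this, smul_dotProduct, smul_eq_mul]

/-- an element that stabilises the span of an independent family is in the small field -/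
theorem mem_of_stab {m : ℕ} (hm : 0 < m) (c : Fin m → K) (hc : LinearIndependent k c)
    (N : Fin m → Fin m → k) (θ : K) (h : ∀ r, ∑ i, algebraMap k K (N r i) * c i = θ * c r) :
    ∃ t : k, algebraMap k K t = θ := by
  have hne : Submodule.span k (Set.range c) ≠ ⊥ := by
    rw [Submodule.ne_bot_iff]
    exact ⟨c ⟨0, hm⟩, Submodule.subset_span (Set.mem_range_self _), hc.ne_zero _⟩
  have hfg : (Submodule.span k (Set.range c)).FG :=
    Submodule.fg_span (Set.finite_range c)
  have hint : IsIntegral k θ := by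
    refine isIntegral_of_smul_mem_submodule (Submodule.span k (Set.range c)) hne hfg θ ?_
    intro v hv
    refine Submodule.span_induction (p := fun v _ => θ • v ∈ Submodule.span k (Set.range c))
      ?_ ?_ ?_ ?_ hv
    · rintro _ ⟨r, rfl⟩
      rw [smul_eq_mul, ← h r]
      refine Submodule.sum_mem _ fun i _ => ?_
      rw [← Algebra.smul_def]
      exact Submodule.smul_mem _ _ (Submodule.subset_span (Set.mem_range_self i))
    · rw [smul_zero]; exact Submodule.zero_mem _
    · intro a b _ _ ha hb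
      rw [smul_add]; exact Submodule.add_mem _ ha hb
    · intro r a _ ha
      rw [smul_comm]; exact Submodule.smul_mem _ _ ha
  have hdeg := IsAlgClosed.degree_eq_one_of_irreducible k (minpoly.irreducible hint)
  obtain ⟨t, ht⟩ := minpoly.mem_range_of_degree_eq_one k θ hdeg
  exact ⟨t, ht⟩

/-- **The key theorem** -/
theorem key (hn : 0 < n) (hD : ∀ x y : D, x * y = y * x)
    (M : D →+* Matrix (Fin n) (Fin n) ℚ) (Λ : V →+ (Fin n → K))
    (hΛ : ∀ (δ : D) (v : V), Λ (δ • v) = (ovf K (M δ)) *ᵥ Λ v)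
    (hind : ∀ (s : ℕ) (v : Fin s → V), LinearIndependent D v →
      LinearIndependent k fun ij : Fin n × Fin s => Λ (v ij.2) ij.1)
    {m m' : ℕ} (hm : 0 < m) (x : Fin m → V) (x' : Fin m' → V) (hx : LinearIndependent D x)
    (hx' : LinearIndependent D x')
    (hs : Submodule.span D (Set.range x) = Submodule.span D (Set.range x'))
    (c : Fin m → K) (ℓ : Fin n → K) (hc : ∀ i, Λ (x i) = c i • ℓ)
    (c' : Fin m' → K) (ℓ' : Fin n → K) (hc' : ∀ j, Λ (x' j) = c' j • ℓ') :
    ∃ δ0 : D, δ0 ≠ 0 ∧ ∃ q : Fin m' → Fin m → ℚ, ∀ j, x' j = δ0 • ∑ i, q j i • x i := by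
  classical
  have hm' : 0 < m' := by
    rcases Nat.eq_zero_or_pos m' with h | h
    · subst h
      have h1 : x ⟨0, hm⟩ ∈ Submodule.span D (Set.range x') := by
        rw [← hs]; exact Submodule.subset_span (Set.mem_range_self _)
      rw [Set.range_eq_empty, Submodule.span_empty, Submodule.mem_bot] at h1
      exact absurd h1 (hx.ne_zero _)
    · exact h
  -- the coefficients
  have hex : ∀ j, ∃ d : Fin m → D, ∑ i, d i • x i = x' j := by
    intro j
    have h1 : x' j ∈ Submodule.span D (Set.range x) := by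
      rw [hs]; exact Submodule.subset_span (Set.mem_range_self _)
    exact (Submodule.mem_span_range_iff_exists_fun D).1 h1
  have hex' : ∀ i, ∃ d : Fin m' → D, ∑ j, d j • x' j = x i := by
    intro i
    have h1 : x i ∈ Submodule.span D (Set.range x') := by
      rw [← hs]; exact Submodule.subset_span (Set.mem_range_self _)
    exact (Submodule.mem_span_range_iff_exists_fun D).1 h1
  choose δ hδ using hex
  choose ε hε using hex'
  have hED : ∀ i i', ∑ j, ε i j * δ j i' = if i = i' then 1 else 0 := by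
    intro i i'
    have h1 : ∑ i', (∑ j, ε i j * δ j i' - if i = i' then 1 else 0) • x i' = 0 := by
      have h2 : ∑ i', (∑ j, ε i j * δ j i') • x i' = x i := by
        rw [← hε i]
        simp only [Finset.sum_smul]
        rw [Finset.sum_comm]
        refine Finset.sum_congr rfl fun j _ => ?_
        rw [← hδ j, Finset.smul_sum]
        exact Finset.sum_congr rfl fun i' _ => mul_smul _ _ _
      simp only [sub_smul, Finset.sum_sub_distrib, h2, ite_smul, one_smul, zero_smul,
        Finset.sum_ite_eq, Finset.mem_univ, if_true, sub_self]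
    exact sub_eq_zero.1 (Fintype.linearIndependent_iff.1 hx _ h1 i')
  have hDE : ∀ j j', ∑ i, δ j i * ε i j' = if j = j' then 1 else 0 := by
    intro j j'
    have h1 : ∑ j', (∑ i, δ j i * ε i j' - if j = j' then 1 else 0) • x' j' = 0 := by
      have h2 : ∑ j', (∑ i, δ j i * ε i j') • x' j' = x' j := by
        rw [← hδ j]
        simp only [Finset.sum_smul]
        rw [Finset.sum_comm]
        refine Finset.sum_congr rfl fun i _ => ?_
        rw [← hε i, Finset.smul_sum]
        exact Finset.sum_congr rfl fun j' _ => mul_smul _ _ _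
      simp only [sub_smul, Finset.sum_sub_distrib, h2, ite_smul, one_smul, zero_smul,
        Finset.sum_ite_eq, Finset.mem_univ, if_true, sub_self]
    exact sub_eq_zero.1 (Fintype.linearIndependent_iff.1 hx' _ h1 j')
  -- independence of the coordinates
  have hI := hind m x hx
  have hI' := hind m' x' hx'
  have hck : LinearIndependent k c := by
    rw [Fintype.linearIndependent_iff]
    intro z hz i0
    -- choose a coordinate
    have h1 : ∑ ij : Fin n × Fin m, (if ij.1 = ⟨0, hn⟩ then z ij.2 else 0) •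
        Λ (x ij.2) ij.1 = 0 := by
      rw [Fintype.sum_prod_type, Finset.sum_eq_single ⟨0, hn⟩]
      · have h2 : ∀ i, (if ((⟨0, hn⟩ : Fin n), i).1 = ⟨0, hn⟩ then z ((⟨0, hn⟩ : Fin n), i).2 else 0) •
            Λ (x ((⟨0, hn⟩ : Fin n), i).2) ((⟨0, hn⟩ : Fin n), i).1 = (z i • c i) * ℓ ⟨0, hn⟩ := by
          intro i
          rw [if_pos rfl, hc, Pi.smul_apply, smul_eq_mul, smul_mul_assoc]
        rw [Finset.sum_congr rfl fun i _ => h2 i, ← Finset.sum_mul, hz, zero_mul]
      · intro b _ hb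
        refine Finset.sum_eq_zero fun i _ => ?_
        rw [if_neg hb, zero_smul]
      · intro h; exact absurd (Finset.mem_univ _) h
    have h2 := Fintype.linearIndependent_iff.1 hI _ h1 (⟨0, hn⟩, i0)
    rwa [if_pos rfl] at h2
  have hdt : ∀ (μ : Fin n → k), μ ≠ 0 → dt K μ ℓ ≠ 0 := by
    intro μ hμ h0
    apply hμ
    have h1 : ∑ ij : Fin n × Fin m, (if ij.2 = ⟨0, hm⟩ then μ ij.1 else 0) •
        Λ (x ij.2) ij.1 = 0 := by
      rw [Fintype.sum_prod_type_right, Finset.sum_eq_single ⟨0, hm⟩]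
      · have h2 : ∀ b, (if (b, (⟨0, hm⟩ : Fin m)).2 = ⟨0, hm⟩ then μ (b, (⟨0, hm⟩ : Fin m)).1 else 0) •
            Λ (x (b, (⟨0, hm⟩ : Fin m)).2) (b, (⟨0, hm⟩ : Fin m)).1 =
            c ⟨0, hm⟩ * (algebraMap k K (μ b) * ℓ b) := by
          intro b
          rw [if_pos rfl, hc, Pi.smul_apply, smul_eq_mul, Algebra.smul_def]
          ring
        rw [Finset.sum_congr rfl fun i _ => h2 i, ← Finset.mul_sum]
        have : ∑ b, algebraMap k K (μ b) * ℓ b = dt K μ ℓ := rfl
        rw [this, h0, mul_zero]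
      · intro b _ hb
        refine Finset.sum_eq_zero fun i _ => ?_
        rw [if_neg hb, zero_smul]
      · intro h; exact absurd (Finset.mem_univ _) h
    funext b
    have h2 := Fintype.linearIndependent_iff.1 hI _ h1 (b, ⟨0, hm⟩)
    rwa [if_pos rfl] at h2
  have hdt' : ∀ (μ : Fin n → k), μ ≠ 0 → dt K μ ℓ' ≠ 0 := by
    intro μ hμ h0
    apply hμ
    have h1 : ∑ ij : Fin n × Fin m', (if ij.2 = ⟨0, hm'⟩ then μ ij.1 else 0) •
        Λ (x' ij.2) ij.1 = 0 := by
      rw [Fintype.sum_prod_type_right, Finset.sum_eq_single ⟨0, hm'⟩]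
      · have h2 : ∀ b, (if (b, (⟨0, hm'⟩ : Fin m')).2 = ⟨0, hm'⟩ then μ (b, (⟨0, hm'⟩ : Fin m')).1 else 0) •
            Λ (x' (b, (⟨0, hm'⟩ : Fin m')).2) (b, (⟨0, hm'⟩ : Fin m')).1 =
            c' ⟨0, hm'⟩ * (algebraMap k K (μ b) * ℓ' b) := by
          intro b
          rw [if_pos rfl, hc', Pi.smul_apply, smul_eq_mul, Algebra.smul_def]
          ring
        rw [Finset.sum_congr rfl fun i _ => h2 i, ← Finset.mul_sum]
        have : ∑ b, algebraMap k K (μ b) * ℓ' b = dt K μ ℓ' := rfl
        rw [this, h0, mul_zero]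
      · intro b _ hb
        refine Finset.sum_eq_zero fun i _ => ?_
        rw [if_neg hb, zero_smul]
      · intro h; exact absurd (Finset.mem_univ _) h
    funext b
    have h2 := Fintype.linearIndependent_iff.1 hI' _ h1 (b, ⟨0, hm'⟩)
    rwa [if_pos rfl] at h2
  -- the comparison of the coefficients
  have hcmp : ∀ (μ : Fin n → k) (σ : D →+* k), EigC M μ σ → ∀ j,
      c' j * dt K μ ℓ' = (∑ i, algebraMap k K (σ (δ j i)) * c i) * dt K μ ℓ := by
    intro μ σ h j
    have h1 : dt K μ (Λ (x' j)) = c' j * dt K μ ℓ' := by rw [hc', dt_smul]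
    rw [← h1, ← hδ j, map_sum, dt_sum, Finset.sum_mul]
    refine Finset.sum_congr rfl fun i _ => ?_
    rw [dt_eig hΛ h, hc, dt_smul]
    ring
  -- proportionality
  have hprop : ∀ (μ : Fin n → k) (σ : D →+* k) (ν : Fin n → k) (τ : D →+* k), EigC M μ σ →
      EigC M ν τ → ∃ t : k, ∀ j i, τ (δ j i) = t * σ (δ j i) := by
    intro μ σ ν τ h1 h2
    obtain ⟨θ, hθ⟩ : ∃ θ : K, θ = dt K μ ℓ * dt K ν ℓ' / (dt K μ ℓ' * dt K ν ℓ) := ⟨_, rfl⟩
    have a1 := hdt μ h1.1
    have a2 := hdt' μ h1.1
    have a3 := hdt ν h2.1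
    have a4 := hdt' ν h2.1
    have hrel : ∀ j, ∑ i, algebraMap k K (τ (δ j i)) * c i =
        θ * ∑ i, algebraMap k K (σ (δ j i)) * c i := by
      intro j
      have b1 := hcmp μ σ h1 j
      have b2 := hcmp ν τ h2 j
      rw [hθ]
      field_simp
      calc (∑ i, algebraMap k K (τ (δ j i)) * c i) * dt K μ ℓ' * dt K ν ℓ
          = ((∑ i, algebraMap k K (τ (δ j i)) * c i) * dt K ν ℓ) * dt K μ ℓ' := by ring
        _ = (c' j * dt K ν ℓ') * dt K μ ℓ' := by rw [b2]
        _ = (c' j * dt K μ ℓ') * dt K ν ℓ' := by ring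
        _ = ((∑ i, algebraMap k K (σ (δ j i)) * c i) * dt K μ ℓ) * dt K ν ℓ' := by rw [b1]
        _ = _ := by ring
    obtain ⟨N, hN⟩ : ∃ N : Fin m → Fin m → k, ∀ r i, N r i = ∑ j, σ (ε r j) * τ (δ j i) :=
      ⟨_, fun _ _ => rfl⟩
    have hNc : ∀ r, ∑ i, algebraMap k K (N r i) * c i = θ * c r := by
      intro r
      have e1 : ∑ i, algebraMap k K (N r i) * c i =
          ∑ j, algebraMap k K (σ (ε r j)) * ∑ i, algebraMap k K (τ (δ j i)) * c i := by
        simp only [hN, map_sum, map_mul, Finset.sum_mul, Finset.mul_sum]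
        rw [Finset.sum_comm]
        exact Finset.sum_congr rfl fun j _ => Finset.sum_congr rfl fun i _ => by ring
      have e2 : ∑ j, algebraMap k K (σ (ε r j)) * (θ * ∑ i, algebraMap k K (σ (δ j i)) * c i) =
          θ * ∑ i, algebraMap k K (σ (∑ j, ε r j * δ j i)) * c i := by
        simp only [map_sum, map_mul, Finset.sum_mul, Finset.mul_sum]
        rw [Finset.sum_comm]
        exact Finset.sum_congr rfl fun j _ => Finset.sum_congr rfl fun i _ => by ring
      rw [e1, Finset.sum_congr rfl fun j _ => by rw [hrel j], e2]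
      congr 1
      simp only [hED, apply_ite σ, map_one, map_zero, apply_ite (algebraMap k K), ite_mul,
        one_mul, zero_mul, Finset.sum_ite_eq, Finset.mem_univ, if_true]
    obtain ⟨t, ht⟩ := mem_of_stab hm c hck N θ hNc
    have hNt : ∀ r i, N r i = if r = i then t else 0 := by
      intro r i
      have e1 : ∑ i, (N r i - if r = i then t else 0) • c i = 0 := by
        simp only [Algebra.smul_def, map_sub, sub_mul, Finset.sum_sub_distrib, hNc r,
          apply_ite (algebraMap k K), map_zero, ite_mul, zero_mul, Finset.sum_ite_eq,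
          Finset.mem_univ, if_true, ht, sub_self]
      exact sub_eq_zero.1 (Fintype.linearIndependent_iff.1 hck _ e1 i)
    refine ⟨t, fun j i => ?_⟩
    have e1 : ∑ r, σ (δ j r) * N r i = t * σ (δ j i) := by
      simp only [hNt, mul_ite, mul_zero, Finset.sum_ite_eq', Finset.mem_univ, if_true]
      ring
    rw [← e1]
    have e2 : ∑ r, σ (δ j r) * N r i = ∑ j', σ (∑ r, δ j r * ε r j') * τ (δ j' i) := by
      simp only [hN, map_sum, map_mul, Finset.sum_mul, Finset.mul_sum]
      rw [Finset.sum_comm]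
      exact Finset.sum_congr rfl fun j _ => Finset.sum_congr rfl fun i _ => by ring
    rw [e2]
    simp only [hDE, apply_ite σ, map_one, map_zero, ite_mul, one_mul, zero_mul, Finset.sum_ite_eq,
      Finset.mem_univ, if_true]
  -- a nonzero entry
  obtain ⟨j0, i0, h0⟩ : ∃ j0 i0, δ j0 i0 ≠ 0 := by
    by_contra hcon
    push Not at hcon
    have h1 := hED ⟨0, hm⟩ ⟨0, hm⟩
    rw [if_pos rfl, Finset.sum_eq_zero fun j _ => by rw [hcon, mul_zero]] at h1
    exact one_ne_zero h1.symm
  -- one eigenvector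
  obtain ⟨μ0, σ0, hμ0⟩ : ∃ (μ : Fin n → k) (σ : D →+* k), EigC M μ σ := by
    by_contra hcon
    push Not at hcon
    have h1 := span_eigC (k := k) hn M hD
    have h2 : {μ : Fin n → k | ∃ σ : D →+* k, EigC M μ σ} = ∅ := by
      ext μ
      constructor
      · rintro ⟨σ, hσ⟩; exact absurd hσ (hcon μ σ)
      · intro h; exact absurd h (Set.notMem_empty _)
    rw [h2, Submodule.span_empty] at h1
    have h3 : (Pi.single ⟨0, hn⟩ 1 : Fin n → k) ∈ (⊥ : Submodule k (Fin n → k)) := by
      rw [h1]; trivial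
    rw [Submodule.mem_bot] at h3
    have := congrFun h3 ⟨0, hn⟩
    simp at this
  have hq : ∀ j i, ∃ q : ℚ, δ j i * (δ j0 i0)⁻¹ = (q : D) := by
    intro j i
    refine rat_of_char (k := k) hn M hD _ (σ0 (δ j i * (δ j0 i0)⁻¹)) fun ν τ hτ => ?_
    obtain ⟨t, ht⟩ := hprop μ0 σ0 ν τ hμ0 hτ
    have e1 : τ (δ j0 i0) ≠ 0 := (map_ne_zero τ).2 h0
    have e2 : σ0 (δ j0 i0) ≠ 0 := (map_ne_zero σ0).2 h0
    have e3 : t ≠ 0 := by
      intro h
      rw [ht, h, zero_mul] at e1
      exact e1 rfl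
    rw [map_mul, map_mul, map_inv₀, map_inv₀, ht j i, ht j0 i0]
    field_simp
  choose q hq using hq
  refine ⟨δ j0 i0, h0, q, fun j => ?_⟩
  rw [← hδ j, Finset.smul_sum]
  refine Finset.sum_congr rfl fun i _ => ?_
  have e1 : δ j i = δ j0 i0 * (q j i : D) := by
    rw [hD, ← hq, mul_assoc, inv_mul_cancel₀ h0, mul_one]
  have e2 : (q j i) • x i = ((q j i : ℚ) : D) • x i := by
    rw [← Rat.smul_one_eq_cast, smul_assoc, one_smul]
  rw [e2, smul_smul, ← e1]

end Pool.Agent.P8H43.RK
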